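import Mathlib

set_option autoImplicit false

namespace Pool.Agent.Lib.MP_546eea_al

/-- A (nondeterministic) pushdown automaton over the input alphabet `T`: finitely many states,
a finite stack alphabet, finitely many transitions `(q, a, X, q', γ)` meaning: in state `q`,
reading the letter `a` (or nothing if `a = none`), with `X` on top of the stack, go to state `q'`
and replace `X` by the word `γ`. -/
structure PDA (T : Type) where
  /-- states -/
  Q : Type
  /-- stack symbols -/
  Γ : Type
  finQ : Finite Q
  finΓ : Finite Γ
  /-- initial state -/
  start : Q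
  /-- initial stack symbol -/
  bottom : Γ
  /-- accepting states -/
  final : Set Q
  /-- transitions -/
  trans : Set (Q × Option T × Γ × Q × List Γ)
  finTrans : trans.Finite

/-- `P.Run q γ u q' γ'`: from state `q` and stack `γ` (top first), the automaton can read the word
`u` and end in state `q'` with stack `γ'`. -/
inductive PDA.Run {T : Type} (P : PDA T) : P.Q → List P.Γ → List T → P.Q → List P.Γ → Prop
  | refl (q : P.Q) (γ : List P.Γ) : PDA.Run P q γ [] q γ
  | step {q q₁ q₂ : P.Q} {a : Option T} {X : P.Γ} {δ s γ : List P.Γ} {u : List T} :
      (q, a, X, q₁, δ) ∈ P.trans → PDA.Run P q₁ (δ ++ s) u q₂ γ →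
      PDA.Run P q (X :: s) (a.toList ++ u) q₂ γ

/-- The language accepted (by final state) by a pushdown automaton. -/
def PDA.language {T : Type} (P : PDA T) : Set (List T) :=
  {u | ∃ f ∈ P.final, ∃ γ, P.Run P.start [P.bottom] u f γ}

/-- A language is context-free if it is accepted by a pushdown automaton. -/
def IsContextFree {T : Type} (L : Set (List T)) : Prop := ∃ P : PDA T, P.language = L

/-- `y` is an inverse of `x` in the sense of semigroup theory. -/
def IsInv {M : Type} [Monoid M] (x y : M) : Prop := x * y * x = x ∧ y * x * y = y

/-- An inverse monoid: every element has exactly one inverse. -/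
def IsInverseMonoid (M : Type) [Monoid M] : Prop := ∀ x : M, ∃! y : M, IsInv x y

/-- The natural partial order of an inverse monoid: `x ≤ y` iff `x = e y` for an idempotent `e`. -/
def NatLE {M : Type} [Monoid M] (x y : M) : Prop := ∃ e : M, e * e = e ∧ x = e * y

section

variable {A M : Type} [Monoid M] (τ : A ⊕ A → M)

/-- The value in `M` of a word over `A ∪ A⁻¹`, the letters being evaluated by `τ`. -/
def eval (w : List (A ⊕ A)) : M := (w.map τ).prod

/-- Directed reachability in the Cayley graph, which has an edge `x → x (τ a)` for each letter. -/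
def Reach (x y : M) : Prop := Relation.ReflTransGen (fun x y => ∃ a, y = x * τ a) x y

/-- The vertices of the Schützenberger graph of `w`: the strongly connected component of the
Cayley graph containing the value of `w`. -/
def SVertex (w : List (A ⊕ A)) : Type := {x : M // Reach τ (eval τ w) x ∧ Reach τ x (eval τ w)}

/-- The Schützenberger graph of `w`, as an undirected graph. -/
def schutzenbergerGraph (w : List (A ⊕ A)) : SimpleGraph (SVertex τ w) :=
  SimpleGraph.fromRel fun x y => ∃ a, y.1 = x.1 * τ a

/-- The language of the Schützenberger automaton of `w`. -/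
def schutzenbergerLanguage (w : List (A ⊕ A)) : Set (List (A ⊕ A)) :=
  {u | NatLE (eval τ w) (eval τ u)}

end

/-- A connected graph with its path metric is quasi-isometric to a tree. -/
def QuasiIsometricToTree {V : Type} (G : SimpleGraph V) : Prop :=
  G.Connected ∧ ∃ (W : Type) (T : SimpleGraph W), T.IsTree ∧ ∃ (f : V → W) (K C : ℕ),
    (∀ x y, T.dist (f x) (f y) ≤ K * G.dist x y + C ∧ G.dist x y ≤ K * T.dist (f x) (f y) + C) ∧
    ∀ t, ∃ x, T.dist t (f x) ≤ C

end Pool.Agent.Lib.MP_546eea_al
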