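import Pool.Agent.Lib.MP_546eea_al.Defs

set_option autoImplicit false

namespace Pool.Agent.Lib.MP_546eea_al

open SimpleGraph

/-- A graph with a level function in which adjacent vertices have different levels and every
vertex has at most one lower neighbour has no cycle. -/
lemma isAcyclic_of_level {W : Type} (T : SimpleGraph W) (l : W → ℕ)
    (h1 : ∀ s t, T.Adj s t → l s ≠ l t)
    (h2 : ∀ s t t', T.Adj s t → T.Adj s t' → l t < l s → l t' < l s → t = t') : T.IsAcyclic := by
  classical
  intro v c hc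
  obtain ⟨u, hu, hmax⟩ := c.support.toFinset.exists_max_image l ⟨v, by simp⟩
  have hu' : u ∈ c.support := by simpa using hu
  have hc' := hc.rotate hu'
  have hsup : ∀ z ∈ (c.rotate u hu').support, l z ≤ l u := by
    intro z hz
    exact hmax z (by simpa using (Walk.mem_support_rotate_iff c u hu').1 hz)
  have hnil := hc'.not_nil
  have a1 := Walk.adj_snd hnil
  have a2 := (Walk.adj_penultimate hnil).symm
  refine hc'.snd_ne_penultimate (h2 u _ _ a1 a2 ?_ ?_)
  · exact lt_of_le_of_ne (hsup _ (Walk.getVert_mem_support _ _)) (h1 _ _ a1).symm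
  · exact lt_of_le_of_ne (hsup _ (Walk.getVert_mem_support _ _)) (h1 _ _ a2).symm

section Layer

variable {V : Type} (G : SimpleGraph V) (α : V)

/-- One step along an edge both of whose ends are at distance at least `n` from `α`. -/
def Far (n : ℕ) (a b : V) : Prop := G.Adj a b ∧ n ≤ G.dist α a ∧ n ≤ G.dist α b

/-- Same distance `n` from `α`, and joined by a path at distance at least `n` from `α`. -/
def layerSetoid : Setoid V where
  r x y := G.dist α x = G.dist α y ∧ Relation.ReflTransGen (Far G α (G.dist α x)) x y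
  iseqv :=
    { refl := fun _ => ⟨rfl, Relation.ReflTransGen.refl⟩
      symm := by
        rintro x y ⟨h1, h2⟩
        refine ⟨h1.symm, ?_⟩
        rw [← h1]
        have : Std.Symm (Far G α (G.dist α x)) := ⟨fun a b h => ⟨h.1.symm, h.2.2, h.2.1⟩⟩
        exact Relation.ReflTransGen.stdSymm.symm _ _ h2
      trans := by
        rintro x y z ⟨h1, h2⟩ ⟨h3, h4⟩
        exact ⟨h1.trans h3, h2.trans (h1 ▸ h4)⟩ }

/-- The level of a class. -/
noncomputable def level : Quotient (layerSetoid G α) → ℕ :=
  Quotient.lift (fun x => G.dist α x) fun _ _ h => h.1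

/-- The layering tree. -/
def layerTree : SimpleGraph (Quotient (layerSetoid G α)) where
  Adj s t := ∃ x y, s = Quotient.mk _ x ∧ t = Quotient.mk _ y ∧ G.Adj x y ∧
    G.dist α x ≠ G.dist α y
  symm := ⟨by
    rintro s t ⟨x, y, h1, h2, h3, h4⟩
    exact ⟨y, x, h2, h1, h3.symm, h4.symm⟩⟩
  loopless := ⟨by
    rintro s ⟨x, y, h1, h2, -, h4⟩
    exact h4 (Quotient.exact (h1.symm.trans h2)).1⟩

variable {G α}

lemma layer_step {x y : V} (h : G.Adj x y) :
    (Quotient.mk (layerSetoid G α) x = Quotient.mk _ y) ∨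
      (layerTree G α).Adj (Quotient.mk _ x) (Quotient.mk _ y) := by
  by_cases hd : G.dist α x = G.dist α y
  · exact Or.inl (Quotient.sound ⟨hd, Relation.ReflTransGen.single ⟨h, le_rfl, hd.le⟩⟩)
  · exact Or.inr ⟨x, y, rfl, rfl, h, hd⟩

lemma layer_walk {x y : V} (p : G.Walk x y) :
    ∃ q : (layerTree G α).Walk (Quotient.mk _ x) (Quotient.mk _ y), q.length ≤ p.length := by
  induction p with
  | nil => exact ⟨Walk.nil, le_rfl⟩
  | cons h p ih =>
    obtain ⟨q, hq⟩ := ih
    rcases layer_step (α := α) h with h' | h'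
    · exact ⟨q.copy h'.symm rfl, by simp; omega⟩
    · exact ⟨Walk.cons h' q, by simpa using hq⟩

lemma dist_adj_le (hG : G.Connected) {x y : V} (h : G.Adj x y) :
    G.dist α x ≤ G.dist α y + 1 := by
  have h1 := hG.dist_triangle (u := α) (v := y) (w := x)
  have h2 : G.dist y x = 1 := dist_eq_one_iff_adj.2 h.symm
  omega

lemma layerTree_isTree (hG : G.Connected) : (layerTree G α).IsTree := by
  refine ⟨?_, isAcyclic_of_level _ (level G α) ?_ ?_⟩
  · have : Nonempty (Quotient (layerSetoid G α)) := ⟨Quotient.mk _ α⟩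
    refine ⟨fun s t => ?_⟩
    obtain ⟨x, rfl⟩ := Quotient.exists_rep s
    obtain ⟨y, rfl⟩ := Quotient.exists_rep t
    obtain ⟨p⟩ := hG.preconnected x y
    obtain ⟨q, -⟩ := layer_walk (α := α) p
    exact ⟨q⟩
  · rintro s t ⟨x, y, rfl, rfl, -, h⟩
    exact h
  · rintro s t t' ⟨x, y, rfl, rfl, h1, -⟩ ⟨x', y', hx, rfl, h2, -⟩ h3 h4
    obtain ⟨e1, e2⟩ := Quotient.exact hx
    have h3' : G.dist α y < G.dist α x := h3
    have h4' : G.dist α y' < G.dist α x := h4
    have b1 := dist_adj_le (α := α) hG h1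
    have b2 := dist_adj_le (α := α) hG h2
    refine Quotient.sound ⟨by omega, ?_⟩
    refine Relation.ReflTransGen.head (b := x) ⟨h1.symm, le_rfl, by omega⟩ ?_
    refine Relation.ReflTransGen.tail (b := x') ?_ ⟨h2, by omega, by omega⟩
    have hm : Far G α (G.dist α x) ≤ Far G α (G.dist α y) := fun a b h =>
      ⟨h.1, by have := h.2.1; omega, by have := h.2.2; omega⟩
    exact Relation.ReflTransGen.mono hm _ _ e2

theorem quasiIsometricToTree_of_layers (hG : G.Connected) (α : V) (D : ℕ)
    (hD : ∀ x y, G.dist α x = G.dist α y → Relation.ReflTransGen (Far G α (G.dist α x)) x y →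
      G.dist x y ≤ D) : QuasiIsometricToTree G := by
  have hT := layerTree_isTree (α := α) hG
  refine ⟨hG, _, layerTree G α, hT, Quotient.mk _, D + 1, D, fun x y => ⟨?_, ?_⟩, fun t => ?_⟩
  · obtain ⟨p, hp⟩ := hG.exists_walk_length_eq_dist x y
    obtain ⟨q, hq⟩ := layer_walk (α := α) p
    have := dist_le q
    nlinarith
  · have key : ∀ s t (q : (layerTree G α).Walk s t) (x y : V), s = Quotient.mk _ x →
        t = Quotient.mk _ y → G.dist x y ≤ (D + 1) * q.length + D := by
      intro s t q
      induction q with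
      | nil =>
        intro x y h1 h2
        obtain ⟨e1, e2⟩ := Quotient.exact (h1.symm.trans h2)
        simpa using hD x y e1 e2
      | cons h q ih =>
        intro x y h1 h2
        obtain ⟨x₀, x₁, e0, e1, ha, -⟩ := h
        have i1 := ih x₁ y e1 h2
        obtain ⟨e2, e3⟩ := Quotient.exact (h1.symm.trans e0)
        have i2 := hD x x₀ e2 e3
        have i3 : G.dist x₀ x₁ = 1 := dist_eq_one_iff_adj.2 ha
        have t1 := hG.dist_triangle (u := x) (v := x₀) (w := y)
        have t2 := hG.dist_triangle (u := x₀) (v := x₁) (w := y)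
        simp only [Walk.length_cons]
        nlinarith
    obtain ⟨q, hq⟩ := hT.1.exists_walk_length_eq_dist (Quotient.mk _ x) (Quotient.mk _ y)
    rw [← hq]
    exact key _ _ q x y rfl rfl
  · obtain ⟨x, rfl⟩ := Quotient.exists_rep t
    exact ⟨x, by simp⟩

end Layer

end Pool.Agent.Lib.MP_546eea_al
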