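import Pool.Agent.Lib.MP_546eea_al.Pda
import Pool.Agent.Lib.MP_546eea_al.Tree

set_option autoImplicit false

namespace Pool.Agent.Lib.MP_546eea_al

open SimpleGraph

section Monoid

variable {M : Type} [Monoid M]

lemma IsInv.symm {x y : M} (h : IsInv x y) : IsInv y x := ⟨h.2, h.1⟩

lemma IsInverseMonoid.idem_mul (hM : IsInverseMonoid M) {e f : M} (he : e * e = e)
    (hf : f * f = f) : e * f * (e * f) = e * f := by
  obtain ⟨x, hx, -⟩ := hM (e * f)
  have he' : ∀ z, e * (e * z) = e * z := fun z => by rw [← mul_assoc, he]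
  have hf' : ∀ z, f * (f * z) = f * z := fun z => by rw [← mul_assoc, hf]
  have h1 : e * (f * (x * (e * f))) = e * f := by simpa [mul_assoc] using hx.1
  have h2 : ∀ z, x * (e * (f * (x * z))) = x * z := fun z => by
    have := congrArg (· * z) hx.2
    simpa [mul_assoc] using this
  have h3 : IsInv (e * f) (f * x * e) := by
    constructor
    · simp only [mul_assoc, he', hf', h1]
    · simp only [mul_assoc, he', hf', h2]
  have h4 : x = f * x * e := (hM (e * f)).unique hx h3
  have h5 : x * x = x := by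
    conv_lhs => rw [h4]
    conv_rhs => rw [h4]
    simp only [mul_assoc, h2]
  have h6 : IsInv x x := ⟨by rw [h5, h5], by rw [h5, h5]⟩
  have h7 : e * f = x := (hM x).unique hx.symm h6
  rw [h7, h5]

lemma IsInverseMonoid.idem_comm (hM : IsInverseMonoid M) {e f : M} (he : e * e = e)
    (hf : f * f = f) : e * f = f * e := by
  have h1 := hM.idem_mul he hf
  have h2 := hM.idem_mul hf he
  have he' : ∀ z, e * (e * z) = e * z := fun z => by rw [← mul_assoc, he]
  have hf' : ∀ z, f * (f * z) = f * z := fun z => by rw [← mul_assoc, hf]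
  have h3 : IsInv (e * f) (e * f) := ⟨by rw [h1, h1], by rw [h1, h1]⟩
  have h4 : IsInv (e * f) (f * e) := by
    constructor
    · simpa only [mul_assoc, he', hf'] using h1
    · simpa only [mul_assoc, he', hf'] using h2
  exact (hM (e * f)).unique h3 h4

lemma IsInv.idem_left {x y : M} (h : IsInv x y) : x * y * (x * y) = x * y := by
  rw [← mul_assoc, h.1]

lemma IsInverseMonoid.isInv_mul (hM : IsInverseMonoid M) {x x' s s' : M} (hx : IsInv x x')
    (hs : IsInv s s') : IsInv (x * s) (s' * x') := by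
  have hc := hM.idem_comm hs.idem_left hx.symm.idem_left
  constructor
  · calc x * s * (s' * x') * (x * s) = x * (s * s' * (x' * x)) * s := by simp only [mul_assoc]
      _ = (x * x' * x) * (s * s' * s) := by rw [hc]; simp only [mul_assoc]
      _ = x * s := by rw [hx.1, hs.1]
  · calc s' * x' * (x * s) * (s' * x') = s' * (x' * x * (s * s')) * x' := by simp only [mul_assoc]
      _ = (s' * s * s') * (x' * x * x') := by rw [← hc]; simp only [mul_assoc]
      _ = s' * x' := by rw [hx.2, hs.2]

/-- Inside an `R`-class, right multiplication by `s` is undone by the inverse of `s`. -/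
lemma IsInverseMonoid.back (hM : IsInverseMonoid M) {x s s' t : M} (hs : IsInv s s')
    (h : x = x * s * t) : x * s * s' = x := by
  obtain ⟨x', hx, -⟩ := hM x
  have hy := hM.isInv_mul hx hs
  have hc := hM.idem_comm hs.idem_left hx.symm.idem_left
  have h1 : x * s * (s' * x') * x = x := by
    conv_lhs => rhs; rw [h]
    rw [← mul_assoc, hy.1, ← h]
  calc x * s * s' = (x * x' * x) * (s * s') := by rw [hx.1, mul_assoc]
    _ = x * (x' * x * (s * s')) := by simp only [mul_assoc]
    _ = x * s * (s' * x') * x := by rw [← hc]; simp only [mul_assoc]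
    _ = x := h1

lemma IsInverseMonoid.natLE_iff (hM : IsInverseMonoid M) {x x' y : M} (hx : IsInv x x') :
    NatLE x y ↔ x = x * x' * y := by
  refine ⟨?_, fun h => ⟨x * x', hx.idem_left, h⟩⟩
  rintro ⟨e, he, rfl⟩
  obtain ⟨y', hy, -⟩ := hM y
  have hee : IsInv e e := ⟨by rw [he, he], by rw [he, he]⟩
  have h1 : x' = y' * e := (hM (e * y)).unique hx (hM.isInv_mul hee hy)
  have hc := hM.idem_comm he hy.idem_left
  rw [h1]
  calc e * y = (e * e) * (y * y' * y) := by rw [he, hy.1]
    _ = e * (e * (y * y')) * y := by simp only [mul_assoc]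
    _ = e * y * (y' * e) * y := by rw [hc]; simp only [mul_assoc]

end Monoid

section Graph

variable {A M : Type} [Monoid M] {τ : A ⊕ A → M}

@[simp] lemma eval_nil : eval τ [] = 1 := rfl

@[simp] lemma eval_append (u v : List (A ⊕ A)) : eval τ (u ++ v) = eval τ u * eval τ v := by
  simp [eval]

@[simp] lemma eval_cons (a : A ⊕ A) (v : List (A ⊕ A)) : eval τ (a :: v) = τ a * eval τ v := by
  simp [eval]

lemma reach_iff {x y : M} : Reach τ x y ↔ ∃ u, y = x * eval τ u := by
  constructor
  · intro h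
    induction h with
    | refl => exact ⟨[], by simp⟩
    | tail _ h ih =>
      obtain ⟨u, rfl⟩ := ih
      obtain ⟨a, rfl⟩ := h
      exact ⟨u ++ [a], by simp [mul_assoc]⟩
  · rintro ⟨u, rfl⟩
    induction u generalizing x with
    | nil => rw [eval_nil, mul_one]; exact Relation.ReflTransGen.refl
    | cons a u ih =>
      rw [eval_cons, ← mul_assoc]
      exact Relation.ReflTransGen.head ⟨a, rfl⟩ ih

variable {w : List (A ⊕ A)}

/-- The word `u` labels a path from `x` to `y` in the Schützenberger graph. -/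
def Path (x : SVertex τ w) (u : List (A ⊕ A)) (y : SVertex τ w) : Prop := y.1 = x.1 * eval τ u

lemma SVertex.reach (x y : SVertex τ w) : Reach τ x.1 y.1 := x.2.2.trans y.2.1

lemma Path.append {x y z : SVertex τ w} {u v : List (A ⊕ A)} (h : Path x u y) (h' : Path y v z) :
    Path x (u ++ v) z := by
  unfold Path at *
  rw [h', h, eval_append, mul_assoc]

lemma Path.split {x z : SVertex τ w} {u v : List (A ⊕ A)} (h : Path x (u ++ v) z) :
    ∃ y, Path x u y ∧ Path y v z := by
  have h' : z.1 = x.1 * eval τ u * eval τ v := by rw [h, eval_append, mul_assoc]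
  exact ⟨⟨x.1 * eval τ u, x.2.1.trans (reach_iff.2 ⟨u, rfl⟩),
    (reach_iff.2 ⟨v, h'⟩).trans z.2.2⟩, rfl, h'⟩

lemma Path.det {x y z : SVertex τ w} {u : List (A ⊕ A)} (h : Path x u y) (h' : Path x u z) :
    y = z := Subtype.ext (h.trans h'.symm)

lemma Path.back (hM : IsInverseMonoid M) {x y : SVertex τ w} {s s' : M} (hs : IsInv s s')
    (h : y.1 = x.1 * s) : x.1 = y.1 * s' := by
  obtain ⟨t, ht⟩ := reach_iff.1 (y.reach x)
  rw [h] at ht ⊢
  exact (hM.back hs ht).symm

lemma Path.codet (hM : IsInverseMonoid M) {x y z : SVertex τ w} {u : List (A ⊕ A)}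
    (h : Path x u z) (h' : Path y u z) : x = y := by
  obtain ⟨s', hs, -⟩ := hM (eval τ u)
  exact Subtype.ext ((Path.back hM hs h).trans (Path.back hM hs h').symm)

lemma Path.walk {x y : SVertex τ w} {u : List (A ⊕ A)} (h : Path x u y) :
    ∃ p : (schutzenbergerGraph τ w).Walk x y, p.length ≤ u.length := by
  induction u generalizing x with
  | nil =>
    obtain rfl : y = x := Subtype.ext (by simpa [Path] using h)
    exact ⟨Walk.nil, le_rfl⟩
  | cons a u ih =>
    obtain ⟨m, h1, h2⟩ := Path.split (u := [a]) h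
    obtain ⟨p, hp⟩ := ih h2
    by_cases hxm : x = m
    · subst hxm
      exact ⟨p, by simp; omega⟩
    · have : (schutzenbergerGraph τ w).Adj x m :=
        (fromRel_adj _ _ _).2 ⟨hxm, Or.inl ⟨a, by simpa [Path] using h1⟩⟩
      exact ⟨Walk.cons this p, by simpa using hp⟩

lemma Path.dist_le {x y : SVertex τ w} {u : List (A ⊕ A)} (h : Path x u y) :
    (schutzenbergerGraph τ w).dist x y ≤ u.length := by
  obtain ⟨p, hp⟩ := h.walk
  exact (SimpleGraph.dist_le p).trans hp

lemma schutzenbergerGraph_connected : (schutzenbergerGraph τ w).Connected := by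
  have : Nonempty (SVertex τ w) := ⟨⟨eval τ w, Relation.ReflTransGen.refl,
    Relation.ReflTransGen.refl⟩⟩
  refine ⟨fun x y => ?_⟩
  obtain ⟨u, hu⟩ := reach_iff.1 (x.reach y)
  obtain ⟨p, -⟩ := Path.walk (x := x) (y := y) hu
  exact ⟨p⟩

variable (hM : IsInverseMonoid M) (hτ : ∀ a, IsInv (τ (Sum.inl a)) (τ (Sum.inr a)))
include hM hτ

lemma path_of_adj {x y : SVertex τ w} (h : (schutzenbergerGraph τ w).Adj x y) :
    ∃ a, Path x [a] y := by
  obtain ⟨-, ⟨a, ha⟩ | ⟨a, ha⟩⟩ := (fromRel_adj _ _ _).1 h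
  · exact ⟨a, by simpa [Path] using ha⟩
  · cases a with
    | inl a => exact ⟨Sum.inr a, by simpa [Path] using Path.back hM (hτ a) ha⟩
    | inr a => exact ⟨Sum.inl a, by simpa [Path] using Path.back hM (hτ a).symm ha⟩

lemma exists_geodesic (x y : SVertex τ w) :
    ∃ u, Path x u y ∧ u.length = (schutzenbergerGraph τ w).dist x y := by
  obtain ⟨p, hp⟩ := schutzenbergerGraph_connected.exists_walk_length_eq_dist x y
  rw [← hp]
  clear hp
  induction p with
  | nil => exact ⟨[], by simp [Path], rfl⟩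
  | cons h p ih =>
    obtain ⟨u, h1, h2⟩ := ih
    obtain ⟨a, ha⟩ := path_of_adj hM hτ h
    exact ⟨a :: u, ha.append h1, by simpa using h2⟩

lemma exists_far_path {α x y : SVertex τ w} {n : ℕ} (hy : n ≤ (schutzenbergerGraph τ w).dist α y)
    (h : Relation.ReflTransGen (Far (schutzenbergerGraph τ w) α n) x y) :
    ∃ u, Path x u y ∧ ∀ u₁ u₂ m, u = u₁ ++ u₂ → Path x u₁ m →
      n ≤ (schutzenbergerGraph τ w).dist α m := by
  induction h using Relation.ReflTransGen.head_induction_on with
  | refl =>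
    refine ⟨[], by simp [Path], fun u₁ u₂ m h1 h2 => ?_⟩
    obtain ⟨rfl, -⟩ := List.append_eq_nil_iff.1 h1.symm
    obtain rfl : m = y := Subtype.ext (by simpa [Path] using h2)
    exact hy
  | @head x x' h _ ih =>
    obtain ⟨u, h1, h2⟩ := ih
    obtain ⟨a, ha⟩ := path_of_adj hM hτ h.1
    refine ⟨a :: u, ha.append h1, fun u₁ u₂ m h3 h4 => ?_⟩
    cases u₁ with
    | nil =>
      obtain rfl : m = x := Subtype.ext (by simpa [Path] using h4)
      exact h.2.1
    | cons b u₁ =>
      simp only [List.cons_append, List.cons.injEq] at h3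
      obtain ⟨rfl, rfl⟩ := h3
      obtain ⟨m', h5, h6⟩ := Path.split (u := [a]) h4
      obtain rfl := ha.det h5
      exact h2 u₁ u₂ m rfl h6

theorem quasiIsometricToTree (hsurj : Function.Surjective (eval τ))
    (hL : IsContextFree (schutzenbergerLanguage τ w)) :
    QuasiIsometricToTree (schutzenbergerGraph τ w) := by
  obtain ⟨W', hW, -⟩ := hM (eval τ w)
  obtain ⟨w', rfl⟩ := hsurj W'
  let β : SVertex τ w := ⟨eval τ w, Relation.ReflTransGen.refl, Relation.ReflTransGen.refl⟩
  let α : SVertex τ w := ⟨eval τ w * eval τ w', reach_iff.2 ⟨w', rfl⟩,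
    reach_iff.2 ⟨w, hW.1.symm⟩⟩
  have hmem : ∀ u, u ∈ schutzenbergerLanguage τ w ↔ Path α u β := fun u => hM.natLE_iff hW
  have hr : Path α w β := hW.1.symm
  obtain ⟨K, hK⟩ := hL.triangulation
  have hG := schutzenbergerGraph_connected (τ := τ) (w := w)
  refine quasiIsometricToTree_of_layers hG α (4 * K + 2 * w.length) fun x y hxy hfar => ?_
  obtain ⟨g, hg, hgl⟩ := exists_geodesic hM hτ α x
  obtain ⟨h, hh, hhl⟩ := exists_geodesic hM hτ y α
  obtain ⟨c, hc, hcf⟩ := exists_far_path hM hτ hxy.le hfar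
  rw [dist_comm] at hhl
  obtain ⟨w₁, w₂, z₁, z₂, v₁, v₂, m, n, rfl, rfl, e3, hm, hn, k1, k2⟩ :=
    hK g c (h ++ w) ((hmem _).2 ((hg.append hc).append (hh.append hr)))
  obtain ⟨a, ha1, ha2⟩ := hg.split
  obtain ⟨b, hb1, hb2⟩ := hc.split
  have h3 : Path y (v₁ ++ v₂) β := e3 ▸ hh.append hr
  obtain ⟨d, hd1, hd2⟩ := h3.split
  -- `a` and `b` are close
  obtain ⟨b', k3, k4⟩ := ((hmem _).1 k1).split
  obtain rfl : b' = b := Path.codet hM k4 (hb2.append (hh.append hr))
  obtain ⟨a', k5, k6⟩ := k3.split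
  obtain rfl := ha1.det k5
  -- `b` and `d` are close
  obtain ⟨d', k7, k8⟩ := ((hmem _).1 k2).split
  obtain rfl : d' = d := Path.codet hM k8 hd2
  obtain ⟨b'', k9, k10⟩ := k7.split
  obtain rfl := (hg.append hb1).det k9
  have f1 := hcf z₁ z₂ b' rfl hb1
  have d1 := k6.dist_le
  have d2 := k10.dist_le
  have d3 := ha1.dist_le
  have d4 := ha2.dist_le
  have d5 := hd1.dist_le
  have t1 := hG.dist_triangle (u := α) (v := a) (w := b')
  have t2 := hG.dist_triangle (u := α) (v := d') (w := b')
  have t3 := hG.dist_triangle (u := x) (v := a) (w := y)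
  have t4 := hG.dist_triangle (u := a) (v := b') (w := y)
  have t5 := hG.dist_triangle (u := b') (v := d') (w := y)
  have t6 := hG.dist_triangle (u := x) (v := α) (w := y)
  rw [dist_comm (u := d') (v := b')] at t2
  rw [dist_comm (u := x) (v := a)] at t3
  rw [dist_comm (u := d') (v := y)] at t5
  rw [dist_comm (u := x) (v := α)] at t6
  rw [List.length_append] at hgl
  rcases List.append_eq_append_iff.1 e3 with ⟨e, rfl, e4⟩ | ⟨e, rfl, rfl⟩
  · obtain ⟨α', l1, l2⟩ := hd1.split
    obtain rfl := hh.det l1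
    have d6 := l2.dist_le
    have : e.length ≤ w.length := by rw [e4]; simp
    omega
  · obtain ⟨d'', l1, l2⟩ := hh.split
    obtain rfl := hd1.det l1
    have d6 := l2.dist_le
    rw [dist_comm] at d6
    rw [List.length_append] at hhl
    omega

end Graph

end Pool.Agent.Lib.MP_546eea_al
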