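import Pool.Agent.Lib.MP_546eea_al.Defs

set_option autoImplicit false

namespace Pool.Agent.Lib.MP_546eea_al

variable {T : Type} {P : PDA T}

namespace PDA.Run

lemma append_stack {q q' : P.Q} {γ γ' : List P.Γ} {u : List T} (h : P.Run q γ u q' γ')
    (s : List P.Γ) : P.Run q (γ ++ s) u q' (γ' ++ s) := by
  induction h with
  | refl => exact Run.refl _ _
  | step ht _ ih => exact Run.step ht (by simpa using ih)

lemma trans {q q' q'' : P.Q} {γ γ' γ'' : List P.Γ} {u v : List T} (h : P.Run q γ u q' γ')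
    (h' : P.Run q' γ' v q'' γ'') : P.Run q γ (u ++ v) q'' γ'' := by
  induction h with
  | refl => exact h'
  | step ht _ ih => rw [List.append_assoc]; exact Run.step ht (ih h')

lemma of_nil {q q' : P.Q} {γ' : List P.Γ} {u : List T} (h : P.Run q [] u q' γ') :
    u = [] ∧ q' = q ∧ γ' = [] := by
  cases h
  exact ⟨rfl, rfl, rfl⟩

lemma split {q q'' : P.Q} {γ γ'' : List P.Γ} {w : List T} (h : P.Run q γ w q'' γ'') :
    ∀ u v, w = u ++ v → ∃ q' γ', P.Run q γ u q' γ' ∧ P.Run q' γ' v q'' γ'' := by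
  induction h with
  | refl q γ =>
    intro u v huv
    obtain ⟨rfl, rfl⟩ := List.append_eq_nil_iff.1 huv.symm
    exact ⟨q, γ, Run.refl _ _, Run.refl _ _⟩
  | @step q q₁ q₂ a X δ s γ w ht hr ih =>
    intro u v huv
    cases u with
    | nil => exact ⟨q, X :: s, Run.refl _ _, by rw [List.nil_append] at huv; exact huv ▸ Run.step ht hr⟩
    | cons b u =>
      cases a with
      | none =>
        obtain ⟨q', γ', h1, h2⟩ := ih (b :: u) v huv
        exact ⟨q', γ', Run.step ht h1, h2⟩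
      | some a =>
        simp only [Option.toList_some, List.cons_append, List.nil_append, List.cons.injEq] at huv
        obtain ⟨rfl, rfl⟩ := huv
        obtain ⟨q', γ', h1, h2⟩ := ih u v rfl
        exact ⟨q', γ', Run.step ht h1, h2⟩

/-- Either the part `s` of the stack is never reached, or there is a moment when it is. -/
lemma lowSplit {q q' : P.Q} {γ γ' : List P.Γ} {w : List T} (h : P.Run q γ w q' γ') :
    ∀ γ₀ s, γ = γ₀ ++ s → (∃ γ₀', P.Run q γ₀ w q' γ₀') ∨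
      ∃ v₁ v₂ qc, w = v₁ ++ v₂ ∧ P.Run q γ₀ v₁ qc [] ∧ P.Run qc s v₂ q' γ' := by
  induction h with
  | refl q γ => intro γ₀ s _; exact Or.inl ⟨γ₀, Run.refl _ _⟩
  | @step q q₁ q₂ a X δ t γ w ht hr ih =>
    intro γ₀ s hs
    cases γ₀ with
    | nil =>
      rw [List.nil_append] at hs
      exact Or.inr ⟨[], _, q, rfl, Run.refl _ _, hs ▸ Run.step ht hr⟩
    | cons Y γ₀ =>
      simp only [List.cons_append, List.cons.injEq] at hs
      obtain ⟨rfl, rfl⟩ := hs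
      rcases ih (δ ++ γ₀) s (by simp) with ⟨γ₀', h1⟩ | ⟨v₁, v₂, qc, rfl, h1, h2⟩
      · exact Or.inl ⟨γ₀', Run.step ht h1⟩
      · exact Or.inr ⟨a.toList ++ v₁, v₂, qc, by simp, Run.step ht h1, h2⟩

/-- Splitting a run at a moment of minimal stack height. -/
lemma minSplit {q q' : P.Q} {γ γ' : List P.Γ} {w : List T} (h : P.Run q γ w q' γ') :
    γ' = [] ∨ ∃ z₁ z₂ p X γ₀ γ₀' s, w = z₁ ++ z₂ ∧ γ = γ₀ ++ s ∧ γ₀ ≠ [] ∧ γ' = γ₀' ++ s ∧
      P.Run q γ₀ z₁ p [X] ∧ P.Run p [X] z₂ q' γ₀' := by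
  induction h with
  | refl q γ =>
    cases γ with
    | nil => exact Or.inl rfl
    | cons X s =>
      exact Or.inr ⟨[], [], q, X, [X], [X], s, rfl, rfl, by simp, rfl, Run.refl _ _, Run.refl _ _⟩
  | @step q q₁ q₂ a X δ t γ w ht hr ih =>
    rcases ih with h0 | ⟨z₁, z₂, p, Y, γ₀, γ₀', s, rfl, h1, h2, rfl, h3, h4⟩
    · exact Or.inl h0
    · rcases List.append_eq_append_iff.1 h1 with ⟨e, rfl, rfl⟩ | ⟨e, rfl, rfl⟩
      · exact Or.inr ⟨a.toList ++ z₁, z₂, p, Y, X :: e, γ₀', s, by simp, by simp, by simp, rfl,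
          Run.step ht h3, h4⟩
      · refine Or.inr ⟨[], a.toList ++ (z₁ ++ z₂), q, X, [X], γ₀' ++ e, t, rfl, rfl, by simp,
          by simp, Run.refl _ _, Run.step ht ?_⟩
        simpa using (h3.trans h4).append_stack e

/-- The last moment before which the part `s` of the final stack was not yet complete. -/
lemma lastLow (R : ℕ) (hR : ∀ t ∈ P.trans, t.2.2.2.2.length ≤ R) {q q' : P.Q} {γ γ' : List P.Γ}
    {w : List T} (h : P.Run q γ w q' γ') :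
    ∀ γ₀ s, γ' = γ₀ ++ s → γ₀ ≠ [] → (∃ γ₁, γ = γ₁ ++ s ∧ γ₁ ≠ [] ∧ P.Run q γ₁ w q' γ₀) ∨
      ∃ w₁ w₂ qa X σ t, w = w₁ ++ w₂ ∧ s = σ ++ t ∧ σ.length ≤ R ∧
        P.Run q γ w₁ qa (X :: t) ∧ P.Run qa [X] w₂ q' (γ₀ ++ σ) := by
  induction h with
  | refl q γ => intro γ₀ s h1 h2; exact Or.inl ⟨γ₀, h1, h2, Run.refl _ _⟩
  | @step q q₁ q₂ a X δ t γ w ht hr ih =>
    intro γ₀ s h1 h2
    rcases ih γ₀ s h1 h2 with ⟨γ₁, h3, h4, h5⟩ | ⟨w₁, w₂, qa, Y, σ, t', rfl, h3, h4, h5, h6⟩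
    · rcases List.append_eq_append_iff.1 h3 with ⟨e, rfl, rfl⟩ | ⟨e, rfl, rfl⟩
      · exact Or.inl ⟨X :: e, rfl, by simp, Run.step ht h5⟩
      · refine Or.inr ⟨[], a.toList ++ w, q, X, e, t, rfl, rfl, ?_, Run.refl _ _,
          Run.step ht (by simpa using h5.append_stack e)⟩
        have := hR _ ht
        simp only [List.length_append] at this
        omega
    · exact Or.inr ⟨a.toList ++ w₁, w₂, qa, Y, σ, t', by simp, h3, h4, Run.step ht h5, h6⟩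

end PDA.Run

lemma exists_short {κ : Type} (S : Set κ) (hS : S.Finite) (r : κ → List T → Prop) :
    ∃ K, ∀ k ∈ S, (∃ y, r k y) → ∃ y, y.length ≤ K ∧ r k y := by
  classical
  let g : κ → ℕ := fun k => if h : ∃ y, r k y then h.choose.length else 0
  obtain ⟨K, hK⟩ := (hS.image g).bddAbove
  refine ⟨K, fun k hk h => ⟨h.choose, ?_, h.choose_spec⟩⟩
  have := hK ⟨k, hk, rfl⟩
  simpa [g, dif_pos h] using this

/-- The triangulation property of context-free languages: a word `y₁ y₂ y₃` of the language can be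
cut at a point of each factor so that each of the two middle pieces can be replaced by a short
word. -/
theorem IsContextFree.triangulation {L : Set (List T)} (hL : IsContextFree L) :
    ∃ K, ∀ y₁ y₂ y₃, y₁ ++ y₂ ++ y₃ ∈ L → ∃ w₁ w₂ z₁ z₂ v₁ v₂ m n : List T,
      y₁ = w₁ ++ w₂ ∧ y₂ = z₁ ++ z₂ ∧ y₃ = v₁ ++ v₂ ∧ m.length ≤ K ∧ n.length ≤ K ∧
      w₁ ++ m ++ (z₂ ++ y₃) ∈ L ∧ y₁ ++ z₁ ++ n ++ v₂ ∈ L := by
  obtain ⟨P, rfl⟩ := hL
  have := P.finQ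
  have := P.finΓ
  obtain ⟨R, hR⟩ := (P.finTrans.image fun t => t.2.2.2.2.length).bddAbove
  have hR' : ∀ t ∈ P.trans, t.2.2.2.2.length ≤ R := fun t ht => hR ⟨t, ht, rfl⟩
  obtain ⟨K₁, hK₁⟩ := exists_short (T := T)
    ((Set.univ : Set (P.Q × P.Γ × P.Q)) ×ˢ {l : List P.Γ | l.length ≤ R + 1})
    (Set.finite_univ.prod (List.finite_length_le _ _))
    (fun k y => P.Run k.1.1 [k.1.2.1] y k.1.2.2 k.2)
  obtain ⟨K₂, hK₂⟩ := exists_short (T := T) (Set.univ : Set (P.Q × P.Γ)) Set.finite_univ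
    (fun k y => ∃ f ∈ P.final, ∃ γ, P.Run k.1 [k.2] y f γ)
  have short : ∀ q X q' γ y, γ.length ≤ R + 1 → P.Run q [X] y q' γ →
      ∃ m, m.length ≤ K₁ + K₂ ∧ P.Run q [X] m q' γ := by
    intro q X q' γ y h1 h2
    obtain ⟨m, h3, h4⟩ := hK₁ ((q, X, q'), γ) ⟨trivial, h1⟩ ⟨y, h2⟩
    exact ⟨m, by omega, h4⟩
  refine ⟨K₁ + K₂, ?_⟩
  rintro y₁ y₂ y₃ ⟨f, hf, γf, hrun⟩
  obtain ⟨q₂, γ₂, h12, h3⟩ := hrun.split _ _ rfl
  obtain ⟨q₁, γ₁, h1, h2⟩ := h12.split _ _ rfl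
  rcases h2.minSplit with rfl | ⟨z₁, z₂, p, X, γ₀, γ₀', s, rfl, rfl, hne, rfl, h21, h22⟩
  · obtain ⟨rfl, rfl, rfl⟩ := h3.of_nil
    obtain ⟨m, hm1, hm2⟩ := short _ _ _ _ _ (by simp) h12
    exact ⟨[], y₁, y₂, [], [], [], m, [], rfl, by simp, rfl, hm1, by simp,
      ⟨f, hf, [], by simpa using hm2⟩, ⟨f, hf, [], by simpa using h12⟩⟩
  · have hA : ∃ w₁ w₂ qa Y σ t, y₁ = w₁ ++ w₂ ∧ s = σ ++ t ∧ σ.length ≤ R ∧
        P.Run P.start [P.bottom] w₁ qa (Y :: t) ∧ P.Run qa [Y] w₂ q₁ (γ₀ ++ σ) := by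
      rcases h1.lastLow R hR' γ₀ s rfl hne with ⟨γ', e1, e2, e3⟩ | h
      · obtain ⟨Y, γ'', rfl⟩ := List.exists_cons_of_ne_nil e2
        simp only [List.cons_append, List.cons.injEq] at e1
        obtain ⟨rfl, e1⟩ := e1
        obtain ⟨rfl, rfl⟩ := List.append_eq_nil_iff.1 e1.symm
        exact ⟨[], y₁, P.start, P.bottom, [], [], rfl, rfl, by simp, PDA.Run.refl _ _,
          by simpa using e3⟩
      · exact h
    obtain ⟨w₁, w₂, qa, Y, σ, t, rfl, rfl, hσ, ha1, ha2⟩ := hA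
    obtain ⟨m, hm1, hm2⟩ := short qa Y p (X :: σ) _ (by simpa using hσ)
      (ha2.trans (h21.append_stack σ))
    have hm3 : w₁ ++ m ++ (z₂ ++ y₃) ∈ P.language := by
      refine ⟨f, hf, γf, (ha1.trans (q'' := p) (γ'' := [X] ++ (σ ++ t)) ?_).trans
        ((h22.append_stack _).trans h3)⟩
      simpa using hm2.append_stack t
    have hb : P.Run P.start [P.bottom] (w₁ ++ w₂ ++ z₁) p ([X] ++ (σ ++ t)) :=
      h1.trans (h21.append_stack _)
    rcases h3.lowSplit γ₀' (σ ++ t) rfl with ⟨γ', h4⟩ | ⟨v₁, v₂, qc, rfl, h4, h5⟩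
    · obtain ⟨n, hn1, f', hf', γ'', hn2⟩ := hK₂ (p, X) trivial ⟨_, f, hf, γ', h22.trans h4⟩
      exact ⟨w₁, w₂, z₁, z₂, y₃, [], m, n, rfl, rfl, by simp, hm1, by omega, hm3,
        ⟨f', hf', _, by simpa using hb.trans (hn2.append_stack _)⟩⟩
    · obtain ⟨n, hn1, hn2⟩ := short p X qc [] _ (by simp) (h22.trans h4)
      exact ⟨w₁, w₂, z₁, z₂, v₁, v₂, m, n, rfl, rfl, rfl, hm1, hn1, hm3,
        ⟨f, hf, γf, (hb.trans (hn2.append_stack _)).trans h5⟩⟩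

end Pool.Agent.Lib.MP_546eea_al
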